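import Mathlib

set_option autoImplicit false

open Polynomial

namespace Pool.Agent.Results.MP_2eeab0_an.NotSymmetric

variable {K : Type*} [Field K]

/-- `Z ⊆ K × K` is an irreducible algebraic curve: the zero set of an irreducible polynomial in two
variables (the pair `(z, w)` is a zero of `f` when `f.evalEval w z = 0`). -/
def IsIrreducibleCurve (Z : Set (K × K)) : Prop :=
  ∃ f : K[X][X], Irreducible f ∧ Z = {p : K × K | f.evalEval p.2 p.1 = 0}

/-- `P` and `Q` have the same degree and the map `(z, w) ↦ (P z, Q w)` leaves invariant an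
irreducible algebraic curve that projects onto each of the two coordinate axes. -/
def Intertwined (P Q : K[X]) : Prop :=
  P.natDegree = Q.natDegree ∧ ∃ Z : Set (K × K), IsIrreducibleCurve Z ∧
    (∀ p ∈ Z, (P.eval p.1, Q.eval p.2) ∈ Z) ∧
    Prod.fst '' Z = Set.univ ∧ Prod.snd '' Z = Set.univ

/-- `Q` is the affine conjugate `A⁻¹ ∘ P ∘ A` of `P`, where `A(z) = a z + b` and `a ≠ 0`. -/
def IsConjBy (a b : K) (P Q : K[X]) : Prop :=
  a ≠ 0 ∧ P.comp (C a * X + C b) = (C a * X + C b).comp Q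

/-- `Q` is monic and centered: its leading coefficient is `1` and its coefficient of degree
`natDegree Q - 1` is `0`. -/
def MonicCentered (Q : K[X]) : Prop :=
  Q.Monic ∧ Q.coeff (Q.natDegree - 1) = 0

/-- The set of `ζ` such that `z ↦ ζ z` is in the symmetry group of the monic and centered
polynomial `Q`: any root of unity if `Q` is a monomial, and the `m`-th roots of unity if
`Q = X ^ μ * P₀(X ^ m)` is the reduced form of `Q` and `P₀ ≠ 1`. -/
def ReducedSymm (Q : K[X]) : Set K :=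
  {ζ | (∃ d : ℕ, Q = X ^ d ∧ ∃ n : ℕ, 0 < n ∧ ζ ^ n = 1) ∨
    (∃ (μ m : ℕ) (P₀ : K[X]), 0 < m ∧ Q = X ^ μ * P₀.comp (X ^ m) ∧ P₀.eval 0 ≠ 0 ∧ P₀ ≠ 1 ∧
      (∀ (R : K[X]) (l : ℕ), 2 ≤ l → P₀ ≠ R.comp (X ^ l)) ∧ ζ ^ m = 1)}

/-- The symmetry group `Σ(P)`: all `A ∘ (z ↦ ζ z) ∘ A⁻¹`, where `A` is affine, `A⁻¹ ∘ P ∘ A` is
monic and centered, and `z ↦ ζ z` is a symmetry of it. -/
def SymmGroup (P : K[X]) : Set K[X] :=
  {g | ∃ (a b ζ : K) (Q : K[X]), IsConjBy a b P Q ∧ MonicCentered Q ∧ ζ ∈ ReducedSymm Q ∧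
    g.comp (C a * X + C b) = (C a * X + C b).comp (C ζ * X)}

/-- `T` is the Chebyshev polynomial `T_d`, given by `T_d(w + w⁻¹) = w ^ d + w ^ (-d)`. -/
def IsChebyshev (d : ℕ) (T : K[X]) : Prop :=
  ∀ w : K, w ≠ 0 → T.eval (w + w⁻¹) = w ^ d + (w⁻¹) ^ d

/-- `P` is integrable: it is affinely conjugate to `z ^ d` or to `± T_d`, with `d` its degree. -/
def Integrable (P : K[X]) : Prop :=
  ∃ (a b : K) (Q : K[X]), IsConjBy a b P Q ∧
    (Q = X ^ P.natDegree ∨ IsChebyshev P.natDegree Q ∨ IsChebyshev P.natDegree (-Q))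

/-- `P = 16 X ^ 4 + 16 X ^ 2 + 6 = (4 X ^ 2 + 2) ^ 2 + 2`. -/
noncomputable def P : K[X] := C 16 * X ^ 4 + C 16 * X ^ 2 + C 6

/-- `g = 2 X - 3`. -/
noncomputable def g : K[X] := C 2 * X + C (-3)

/-- `π = X ^ 2 + 2`. -/
noncomputable def q : K[X] := X ^ 2 + C 2

variable [CharZero K]

lemma natDegree_P : (P : K[X]).natDegree = 4 := by
  unfold P
  compute_degree!

lemma natDegree_Pg : ((P : K[X]).comp g).natDegree = 4 := by
  rw [natDegree_comp, natDegree_P]
  have : (g : K[X]).natDegree = 1 := by unfold g; compute_degree!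
  rw [this]

lemma comp_identity : ((P : K[X]).comp g).comp q = q.comp P := by
  apply Polynomial.funext
  intro z
  simp [P, g, q]
  ring

/-- the coefficients of `P(a X + b)` -/
lemma comp_affine (a b : K) : (P : K[X]).comp (C a * X + C b) =
    C (16 * a ^ 4) * X ^ 4 + C (64 * a ^ 3 * b) * X ^ 3 + C (96 * a ^ 2 * b ^ 2 + 16 * a ^ 2) * X ^ 2
      + C (64 * a * b ^ 3 + 32 * a * b) * X + C (16 * b ^ 4 + 16 * b ^ 2 + 6) := by
  apply Polynomial.funext
  intro z
  simp [P]
  ring

omit [CharZero K] in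
lemma coeff_gen (c4 c3 c2 c1 c0 : K) :
    (C c4 * X ^ 4 + C c3 * X ^ 3 + C c2 * X ^ 2 + C c1 * X + C c0 : K[X]).coeff 4 = c4 ∧
    (C c4 * X ^ 4 + C c3 * X ^ 3 + C c2 * X ^ 2 + C c1 * X + C c0 : K[X]).coeff 3 = c3 ∧
    (C c4 * X ^ 4 + C c3 * X ^ 3 + C c2 * X ^ 2 + C c1 * X + C c0 : K[X]).coeff 2 = c2 := by
  refine ⟨?_, ?_, ?_⟩ <;> simp [-map_mul]

lemma coeff_three (a b : K) : ((P : K[X]).comp (C a * X + C b)).coeff 3 = 64 * a ^ 3 * b := by
  rw [comp_affine]
  exact (coeff_gen _ _ _ _ _).2.1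

lemma coeff_two (a b : K) :
    ((P : K[X]).comp (C a * X + C b)).coeff 2 = 96 * a ^ 2 * b ^ 2 + 16 * a ^ 2 := by
  rw [comp_affine]
  exact (coeff_gen _ _ _ _ _).2.2

lemma coeff_four (a b : K) : ((P : K[X]).comp (C a * X + C b)).coeff 4 = 16 * a ^ 4 := by
  rw [comp_affine]
  exact (coeff_gen _ _ _ _ _).1

omit [CharZero K] in
lemma coeff_affine_comp (a b : K) (Q : K[X]) {n : ℕ} (hn : n ≠ 0) :
    ((C a * X + C b).comp Q).coeff n = a * Q.coeff n := by
  simp [coeff_C, hn]

lemma natDegree_conj {a b : K} {Q : K[X]} (h : IsConjBy a b P Q) : Q.natDegree = 4 := by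
  obtain ⟨ha, h⟩ := h
  have h1 : (C a * X + C b : K[X]).natDegree = 1 := by
    compute_degree!
  have := congrArg natDegree h
  rw [natDegree_comp, natDegree_comp, natDegree_P, h1] at this
  omega

/-- `g` is not a symmetry of `P`. -/
lemma not_mem : (g : K[X]) ∉ SymmGroup P := by
  rintro ⟨a, b, ζ, Q, hconj, ⟨-, hc⟩, -, hg⟩
  have hdeg := natDegree_conj hconj
  obtain ⟨ha, h⟩ := hconj
  rw [hdeg] at hc
  have h3 := congrArg (fun p => p.coeff 3) h
  simp only [coeff_three] at h3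
  rw [coeff_affine_comp a b Q (by norm_num : (3 : ℕ) ≠ 0)] at h3
  have hc' : Q.coeff 3 = 0 := hc
  rw [hc', mul_zero] at h3
  have hb : b = 0 := by
    have : (64 : K) ≠ 0 := by norm_num
    simpa [this, ha] using h3
  have h0 := congrArg (Polynomial.eval 0) hg
  simp [g, hb] at h0

lemma chebyshev_four [IsAlgClosed K] {T : K[X]} (h : IsChebyshev 4 T) :
    T = X ^ 4 - C 4 * X ^ 2 + C 2 := by
  apply Polynomial.funext
  intro y
  obtain ⟨w, hw⟩ : ∃ w : K, w ^ 2 - y * w + 1 = 0 := by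
    have hdeg : (X ^ 2 - C y * X + C 1 : K[X]).degree ≠ 0 := by
      have : (X ^ 2 - C y * X + C 1 : K[X]).natDegree = 2 := by compute_degree!
      intro h0
      have h5 : (X ^ 2 - C y * X + C 1 : K[X]).natDegree = 0 :=
        natDegree_eq_of_degree_eq_some (n := 0) (by simpa using h0)
      omega
    obtain ⟨w, hw⟩ := IsAlgClosed.exists_root _ hdeg
    refine ⟨w, ?_⟩
    simpa [IsRoot] using hw
  have hw0 : w ≠ 0 := by
    rintro rfl
    simp at hw
  have hy : y = w + w⁻¹ := by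
    field_simp
    linear_combination -hw
  rw [hy, h w hw0]
  simp
  field_simp
  ring

lemma not_integrable [IsAlgClosed K] : ¬ Integrable (P : K[X]) := by
  rintro ⟨a, b, Q, hconj, hQ⟩
  rw [natDegree_P] at hQ
  obtain ⟨ha, h⟩ := hconj
  have h3 := congrArg (fun p => p.coeff 3) h
  have h2 := congrArg (fun p => p.coeff 2) h
  have h4 := congrArg (fun p => p.coeff 4) h
  simp only [coeff_three] at h3
  simp only [coeff_two] at h2
  simp only [coeff_four] at h4
  rw [coeff_affine_comp a b Q (by norm_num)] at h3 h2 h4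
  have h64 : (64 : K) ≠ 0 := by norm_num
  have hb_of (h0 : Q.coeff 3 = 0) : b = 0 := by
    rw [h0, mul_zero] at h3
    simpa [h64, ha] using h3
  rcases hQ with hQ | hQ | hQ
  · have hb := hb_of (by rw [hQ]; simp [coeff_X_pow])
    rw [hQ, hb] at h2
    simp [coeff_X_pow, ha] at h2
  · have hQ' := chebyshev_four hQ
    have hb := hb_of (by rw [hQ']; simp [coeff_X_pow])
    have c2 : Q.coeff 2 = -4 := by rw [hQ']; simp [coeff_X_pow]
    have c4 : Q.coeff 4 = 1 := by rw [hQ']; simp [coeff_X_pow]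
    rw [c2, hb] at h2
    rw [c4] at h4
    have e1 : a = -(1 / 4) := by
      have : a * (16 * a + 4) = 0 := by linear_combination h2
      rcases mul_eq_zero.mp this with h5 | h5
      · exact absurd h5 ha
      · linear_combination h5 / 16
    rw [e1] at h4
    norm_num at h4
  · have hQ' := chebyshev_four hQ
    have hQ'' : Q = -(X ^ 4 - C 4 * X ^ 2 + C 2) := by rw [← hQ', neg_neg]
    have hb := hb_of (by rw [hQ'']; simp [coeff_X_pow])
    have c2 : Q.coeff 2 = 4 := by rw [hQ'']; simp [coeff_X_pow]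
    have c4 : Q.coeff 4 = -1 := by rw [hQ'']; simp [coeff_X_pow]
    rw [c2, hb] at h2
    rw [c4] at h4
    have e1 : a = 1 / 4 := by
      have : a * (16 * a - 4) = 0 := by linear_combination h2
      rcases mul_eq_zero.mp this with h5 | h5
      · exact absurd h5 ha
      · linear_combination h5 / 16
    rw [e1] at h4
    norm_num at h4

lemma intertwined [IsAlgClosed K] : Intertwined ((P : K[X]).comp g) P := by
  refine ⟨by rw [natDegree_Pg, natDegree_P], {p | p.1 = q.eval p.2}, ?_, ?_, ?_, ?_⟩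
  · refine ⟨X - C q, irreducible_X_sub_C q, ?_⟩
    ext p
    simp [evalEval, sub_eq_zero]
  · rintro ⟨z, w⟩ hp
    change z = q.eval w at hp
    change (P.comp g).eval z = q.eval (P.eval w)
    rw [hp]
    have := congrArg (Polynomial.eval w) (comp_identity (K := K))
    simpa only [eval_comp] using this
  · rw [Set.eq_univ_iff_forall]
    intro z
    have hdeg : (q - C z : K[X]).degree ≠ 0 := by
      have : (q - C z : K[X]).natDegree = 2 := by unfold q; compute_degree!
      intro h0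
      have h5 : (q - C z : K[X]).natDegree = 0 :=
        natDegree_eq_of_degree_eq_some (n := 0) (by simpa using h0)
      omega
    obtain ⟨w, hw⟩ := IsAlgClosed.exists_root _ hdeg
    refine ⟨(z, w), ?_, rfl⟩
    simp only [IsRoot, eval_sub, eval_C, sub_eq_zero] at hw
    exact hw.symm
  · rw [Set.eq_univ_iff_forall]
    intro w
    exact ⟨(q.eval w, w), rfl, rfl⟩

/-- Over every algebraically closed field of characteristic zero there are a non-integrable
polynomial `P` of degree `4` and an affine map `g` not in `Σ(P)` such that `P ∘ g` and `P` are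
intertwined. -/
theorem result (K : Type*) [Field K] [IsAlgClosed K] [CharZero K] :
    ∃ (P : K[X]) (a b : K), P.natDegree = 4 ∧ a ≠ 0 ∧ ¬ Integrable P ∧
      Intertwined (P.comp (C a * X + C b)) P ∧ C a * X + C b ∉ SymmGroup P :=
  ⟨P, 2, -3, natDegree_P, two_ne_zero, not_integrable, intertwined, not_mem⟩

end Pool.Agent.Results.MP_2eeab0_an.NotSymmetric
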